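import Pool.Agent.Thick.Final

set_option autoImplicit false

/-!
# Thick points of the log-correlated Gaussian field at the critical level (MP_688ce7_pr, Q1)

Let `φ` be (any version of) the whole-space log-correlated Gaussian field on `ℝ^d`, defined modulo a
global additive constant, `ρ` a mollifier, `c` any (random) choice of the additive constant and
`αc` the supremum of the levels `α > 0` such that almost surely the `α`-thick point set has a
connected component with more than one point. Then almost surely the `αc`-thick point set has a
connected component with more than one point.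
-/

namespace Pool.Agent.Results.MP_688ce7_pr.CriticalThickPoints

open MeasureTheory ProbabilityTheory Pool.Agent.Thick

theorem result {d : ℕ} (ρ : E d → ℝ) (hρ : IsMollifier ρ) {Ω : Type} [MeasurableSpace Ω]
    {P : Measure Ω} {φ : Ω → (E d → ℝ) → ℝ} (hφ : IsLGF P φ) (c : Ω → ℝ) (αc : ℝ)
    (hαc : IsLUB {α : ℝ | 0 < α ∧ ∀ᵐ ω ∂P, HasComp (thick ρ (φ ω) (c ω) α)} αc) :
    ∀ᵐ ω ∂P, HasComp (thick ρ (φ ω) (c ω) αc) :=
  critical ρ hρ hφ c αc hαc

end Pool.Agent.Results.MP_688ce7_pr.CriticalThickPoints
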